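import Mathlib

set_option autoImplicit false

namespace Pool.Agent.Results.MP_88b6d1_co.ExactValue

open Finset Matrix

/-- The matrix `M_f` of a transformation `f` of `[n]`: entry `(i, j)` is `1` iff `f i = j`. -/
def transMat {n : ℕ} (f : Fin n → Fin n) : Matrix (Fin n) (Fin n) Bool :=
  Matrix.of fun i j => decide (f i = j)

/-- The matrix `L_n` of the linear order: entry `(i, j)` is `1` iff `i ≤ j`. -/
def orderMat (n : ℕ) : Matrix (Fin n) (Fin n) Bool :=
  Matrix.of fun i j => decide (i ≤ j)

/-- The Boolean sum (entrywise maximum) of `k` Boolean matrices. -/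
def boolSum {n k : ℕ} (A : Fin k → Matrix (Fin n) (Fin n) Bool) : Matrix (Fin n) (Fin n) Bool :=
  Matrix.of fun i j => decide (∃ t, A t i j = true)

/-- There are `k` matrices, each a transformation matrix or a transposed transformation matrix,
whose Boolean sum is entrywise at least `L_n`. -/
def Covers (n k : ℕ) : Prop :=
  ∃ A : Fin k → Matrix (Fin n) (Fin n) Bool,
    (∀ t, ∃ f : Fin n → Fin n, A t = transMat f ∨ A t = (transMat f)ᵀ) ∧
    ∀ i j, orderMat n i j ≤ boolSum A i j

/-- The number of pairs `j < i` inside a finite set. -/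
lemma two_mul_card_lt {n : ℕ} (T : Finset (Fin n)) :
    2 * ((T ×ˢ T).filter (fun x => x.2 < x.1)).card + T.card = T.card * T.card := by
  classical
  have h1 : ((T ×ˢ T).filter (fun x => x.2 < x.1)).card
      + ((T ×ˢ T).filter (fun x => ¬ x.2 < x.1)).card = T.card * T.card := by
    rw [Finset.card_filter_add_card_filter_not, Finset.card_product]
  have h2 : ((T ×ˢ T).filter (fun x => ¬ x.2 < x.1)).card
      = ((T ×ˢ T).filter (fun x => x.1 < x.2)).card + ((T ×ˢ T).filter (fun x => x.1 = x.2)).card := by
    rw [← Finset.card_union_of_disjoint]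
    · congr 1
      ext x
      simp only [mem_filter, mem_product, mem_union, not_lt, le_iff_lt_or_eq]
      tauto
    · rw [Finset.disjoint_left]
      intro x hx hx'
      simp only [mem_filter] at hx hx'
      exact absurd hx'.2 (ne_of_lt hx.2)
  have h3 : ((T ×ˢ T).filter (fun x => x.1 < x.2)).card
      = ((T ×ˢ T).filter (fun x => x.2 < x.1)).card := by
    apply Finset.card_bij (fun x _ => (x.2, x.1))
    · intro x hx
      simp only [mem_filter, mem_product] at hx ⊢
      tauto
    · rintro ⟨a, b⟩ _ ⟨c, d⟩ _ h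
      simp only [Prod.mk.injEq] at h ⊢
      tauto
    · rintro ⟨a, b⟩ h
      refine ⟨(b, a), ?_, rfl⟩
      simp only [mem_filter, mem_product] at h ⊢
      tauto
  have h4 : ((T ×ˢ T).filter (fun x => x.1 = x.2)).card = T.card := by
    apply Finset.card_bij (fun x _ => x.1)
    · intro x hx
      simp only [mem_filter, mem_product] at hx
      tauto
    · rintro ⟨a, b⟩ hx ⟨c, d⟩ hy h
      simp only [mem_filter, mem_product] at hx hy
      simp only [Prod.mk.injEq]
      simp only at h
      refine ⟨h, ?_⟩
      rw [← hx.2, ← hy.2, h]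
    · intro a ha
      exact ⟨(a, a), by simp [ha], rfl⟩
  omega

/-- Counting the cells of the staircase inside a rectangle. -/
lemma card_cells {n : ℕ} (R C : Finset (Fin n)) :
    ((R ×ˢ C).filter (fun x => x.1 ≤ x.2)).card
      + ((R ×ˢ C).filter (fun x => x.2 < x.1)).card = R.card * C.card := by
  have h := Finset.card_filter_add_card_filter_not (s := R ×ˢ C)
    (fun x : Fin n × Fin n => x.1 ≤ x.2)
  rw [Finset.card_product] at h
  simpa only [not_le] using h

/-- If `k` matrices cover, then the rectangle inequality holds for some splitting `p + q = k`. -/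
lemma covers_count {n k : ℕ} (h : Covers n k) :
    ∃ p q : ℕ, p + q = k ∧ ∀ R C : Finset (Fin n),
      ((R ×ˢ C).filter (fun x => x.1 ≤ x.2)).card ≤ p * R.card + q * C.card := by
  classical
  obtain ⟨A, hA, hcov⟩ := h
  choose f hf using hA
  set P : Finset (Fin k) := Finset.univ.filter (fun t => A t = transMat (f t)) with hP
  refine ⟨P.card, Pᶜ.card, ?_, ?_⟩
  · rw [Finset.card_add_card_compl, Fintype.card_fin]
  intro R C
  have hsub : ((R ×ˢ C).filter (fun x => x.1 ≤ x.2)) ⊆
      (P.biUnion fun t => R.image fun i => (i, f t i)) ∪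
      (Pᶜ.biUnion fun t => C.image fun j => (f t j, j)) := by
    rintro ⟨i, j⟩ hx
    simp only [mem_filter, mem_product] at hx
    obtain ⟨⟨hi, hj⟩, hij⟩ := hx
    have h1 := hcov i j
    have h2 : orderMat n i j = true := by simp [orderMat, hij]
    rw [h2] at h1
    have h3 : boolSum A i j = true := top_le_iff.mp h1
    have h4 : ∃ t, A t i j = true := by
      simpa [boolSum] using h3
    obtain ⟨t, ht⟩ := h4
    simp only [mem_union, mem_biUnion, mem_image, Prod.mk.injEq]
    by_cases htP : t ∈ P
    · left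
      have hAt : A t = transMat (f t) := (Finset.mem_filter.mp htP).2
      refine ⟨t, htP, i, hi, rfl, ?_⟩
      rw [hAt] at ht
      simpa [transMat] using ht
    · right
      have hAt : A t = (transMat (f t))ᵀ := by
        rcases hf t with h | h
        · exact absurd (by rw [hP]; simp [h]) htP
        · exact h
      refine ⟨t, Finset.mem_compl.mpr htP, j, hj, ?_, rfl⟩
      rw [hAt] at ht
      simpa [transMat] using ht
  calc ((R ×ˢ C).filter (fun x => x.1 ≤ x.2)).card
      ≤ _ := Finset.card_le_card hsub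
    _ ≤ _ := Finset.card_union_le _ _
    _ ≤ P.card * R.card + Pᶜ.card * C.card := by
        apply Nat.add_le_add
        · apply Finset.card_biUnion_le_card_mul
          intro t _
          exact Finset.card_image_le
        · apply Finset.card_biUnion_le_card_mul
          intro t _
          exact Finset.card_image_le

/-- The rectangle formed by the first `r` rows and the last `c` columns. -/
lemma corner_count {n r c : ℕ} (hr : r ≤ n) (hc : c ≤ n) (hrc : n ≤ r + c) :
    ∃ R C : Finset (Fin n), R.card = r ∧ C.card = c ∧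
      2 * ((R ×ˢ C).filter (fun x => x.1 ≤ x.2)).card + (r + c - n) * (r + c - n)
        = 2 * (r * c) + (r + c - n) := by
  classical
  set R : Finset (Fin n) := Finset.univ.filter (fun i => i.1 < r) with hR
  set C : Finset (Fin n) := Finset.univ.filter (fun i => n - c ≤ i.1) with hC
  have hRc : R.card = r := by
    rw [hR, Fin.card_filter_val_lt]
    exact min_eq_right hr
  have hCc : C.card = c := by
    have h1 : C = (Finset.univ.filter (fun i : Fin n => i.1 < n - c))ᶜ := by
      ext i
      simp [hC]
    rw [h1, Finset.card_compl, Fin.card_filter_val_lt, Fintype.card_fin]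
    omega
  refine ⟨R, C, hRc, hCc, ?_⟩
  have h1 := card_cells R C
  have h2 : (R ×ˢ C).filter (fun x => x.2 < x.1)
      = ((R ∩ C) ×ˢ (R ∩ C)).filter (fun x => x.2 < x.1) := by
    ext ⟨i, j⟩
    simp only [mem_filter, mem_product, mem_inter, hR, hC, mem_univ, true_and]
    constructor
    · rintro ⟨⟨h1, h2⟩, h3⟩
      have h4 : j.1 < i.1 := h3
      refine ⟨⟨⟨h1, by omega⟩, ⟨by omega, h2⟩⟩, h3⟩
    · rintro ⟨⟨⟨h1, h2⟩, ⟨h3, h4⟩⟩, h5⟩
      exact ⟨⟨h1, h4⟩, h5⟩
  have h3 := two_mul_card_lt (R ∩ C)
  have h4 : (R ∩ C).card = r + c - n := by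
    have h5 := Finset.card_union_add_card_inter R C
    have h6 : R ∪ C = Finset.univ := by
      ext i
      simp only [mem_union, hR, hC, mem_filter, mem_univ, true_and, iff_true]
      omega
    rw [h6, Finset.card_univ, Fintype.card_fin, hRc, hCc] at h5
    omega
  rw [← h2, h4] at h3
  rw [hRc, hCc] at h1
  generalize ((R ×ˢ C).filter (fun x => x.1 ≤ x.2)).card = a at *
  generalize ((R ×ˢ C).filter (fun x => x.2 < x.1)).card = b at *
  omega

/-- Hall's theorem: the rectangle inequalities give a cover. -/
lemma covers_of_rect {n p q : ℕ}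
    (h : ∀ R C : Finset (Fin n),
      ((R ×ˢ C).filter (fun x => x.1 ≤ x.2)).card ≤ p * R.card + q * C.card) :
    Covers n (p + q) := by
  classical
  let ι := {x : Fin n × Fin n // x.1 ≤ x.2}
  let t : ι → Finset ((Fin n × Fin p) ⊕ (Fin n × Fin q)) := fun x =>
    (({x.1.1} : Finset (Fin n)) ×ˢ (Finset.univ : Finset (Fin p))).disjSum
      (({x.1.2} : Finset (Fin n)) ×ˢ (Finset.univ : Finset (Fin q)))
  have hall : ∀ s : Finset ι, s.card ≤ (s.biUnion t).card := by
    intro s
    set R : Finset (Fin n) := s.image (fun x => x.1.1) with hR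
    set C : Finset (Fin n) := s.image (fun x => x.1.2) with hC
    have h1 : s.biUnion t = (R ×ˢ (Finset.univ : Finset (Fin p))).disjSum
        (C ×ˢ (Finset.univ : Finset (Fin q))) := by
      ext y
      rcases y with ⟨i, a⟩ | ⟨j, b⟩
      · simp only [t, mem_biUnion, Finset.inl_mem_disjSum, mem_product, mem_singleton, mem_univ,
          and_true, hR, mem_image]
        constructor
        · rintro ⟨x, hx, rfl⟩
          exact ⟨x, hx, rfl⟩
        · rintro ⟨x, hx, rfl⟩
          exact ⟨x, hx, rfl⟩
      · simp only [t, mem_biUnion, Finset.inr_mem_disjSum, mem_product, mem_singleton, mem_univ,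
          and_true, hC, mem_image]
        constructor
        · rintro ⟨x, hx, rfl⟩
          exact ⟨x, hx, rfl⟩
        · rintro ⟨x, hx, rfl⟩
          exact ⟨x, hx, rfl⟩
    have h2 : (s.biUnion t).card = p * R.card + q * C.card := by
      rw [h1, Finset.card_disjSum, Finset.card_product, Finset.card_product,
        Finset.card_univ, Finset.card_univ, Fintype.card_fin, Fintype.card_fin]
      ring
    rw [h2]
    refine le_trans ?_ (h R C)
    have h3 : s.card = (s.image (fun x : ι => x.1)).card := by
      rw [Finset.card_image_of_injective _ Subtype.val_injective]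
    rw [h3]
    apply Finset.card_le_card
    intro x hx
    simp only [mem_image] at hx
    obtain ⟨y, hy, rfl⟩ := hx
    simp only [mem_filter, mem_product, hR, hC, mem_image]
    exact ⟨⟨⟨y, hy, rfl⟩, ⟨y, hy, rfl⟩⟩, y.2⟩
  obtain ⟨F, hFinj, hF⟩ := (Finset.all_card_le_biUnion_card_iff_exists_injective t).mp hall
  -- the transformations
  let f : Fin p → Fin n → Fin n := fun a i =>
    if hx : ∃ x : ι, F x = Sum.inl (i, a) then hx.choose.1.2 else i
  let g : Fin q → Fin n → Fin n := fun b j =>
    if hx : ∃ x : ι, F x = Sum.inr (j, b) then hx.choose.1.1 else j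
  have hf : ∀ (x : ι) (a : Fin p) (i : Fin n), F x = Sum.inl (i, a) → f a x.1.1 = x.1.2 := by
    intro x a i hx
    have hmem := hF x
    rw [hx] at hmem
    simp only [t, Finset.inl_mem_disjSum, mem_product, mem_singleton, mem_univ, and_true] at hmem
    subst hmem
    have hex : ∃ y : ι, F y = Sum.inl (x.1.1, a) := ⟨x, hx⟩
    have hch := hex.choose_spec
    have heq : hex.choose = x := hFinj (hch.trans hx.symm)
    simp only [f]
    rw [dif_pos hex, heq]
  have hg : ∀ (x : ι) (b : Fin q) (j : Fin n), F x = Sum.inr (j, b) → g b x.1.2 = x.1.1 := by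
    intro x b j hx
    have hmem := hF x
    rw [hx] at hmem
    simp only [t, Finset.inr_mem_disjSum, mem_product, mem_singleton, mem_univ, and_true] at hmem
    subst hmem
    have hex : ∃ y : ι, F y = Sum.inr (x.1.2, b) := ⟨x, hx⟩
    have hch := hex.choose_spec
    have heq : hex.choose = x := hFinj (hch.trans hx.symm)
    simp only [g]
    rw [dif_pos hex, heq]
  let A : Fin (p + q) → Matrix (Fin n) (Fin n) Bool :=
    Fin.addCases (fun a => transMat (f a)) (fun b => (transMat (g b))ᵀ)
  refine ⟨A, ?_, ?_⟩
  · intro s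
    refine Fin.addCases (fun a => ?_) (fun b => ?_) s
    · exact ⟨f a, Or.inl (by simp [A])⟩
    · exact ⟨g b, Or.inr (by simp [A])⟩
  · intro i j
    by_cases hij : i ≤ j
    · have h5 : ∃ s, A s i j = true := by
        set x : ι := ⟨(i, j), hij⟩ with hx
        rcases hFx : F x with ⟨i', a⟩ | ⟨j', b⟩
        · refine ⟨Fin.castAdd q a, ?_⟩
          have := hf x a i' hFx
          simp only [A, Fin.addCases_left, transMat, Matrix.of_apply, decide_eq_true_eq]
          exact this
        · refine ⟨Fin.natAdd p b, ?_⟩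
          have := hg x b j' hFx
          simp only [A, Fin.addCases_right, transMat, Matrix.transpose_apply, Matrix.of_apply,
            decide_eq_true_eq]
          exact this
      obtain ⟨s, hs⟩ := h5
      have h6 : boolSum A i j = true := by
        simp only [boolSum, Matrix.of_apply, decide_eq_true_eq]
        exact ⟨s, hs⟩
      rw [h6]
      exact le_top
    · have : orderMat n i j = false := by simp [orderMat, hij]
      rw [this]
      exact bot_le

/-- Lower bound. -/
lemma lower {n k : ℕ} (h : Covers n k) : 2 * n + 1 - Nat.sqrt (2 * n ^ 2 + 2 * n + 1) ≤ k := by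
  by_contra hlt
  push Not at hlt
  obtain ⟨p, q, hpq, hrect⟩ := covers_count h
  rcases Nat.eq_zero_or_pos n with hn | hn
  · subst hn
    norm_num at hlt
  have hk1 : 1 ≤ k := by
    by_contra hk
    have hp : p = 0 := by omega
    have hq : q = 0 := by omega
    obtain ⟨R, C, hR, hC, hcount⟩ := corner_count (n := n) (r := n) (c := n) le_rfl le_rfl (by omega)
    have h1 := hrect R C
    rw [hp, hq] at h1
    have h2 : ((R ×ˢ C).filter (fun x => x.1 ≤ x.2)).card = 0 := by omega
    rw [h2] at hcount
    have h3 : n + n - n = n := by omega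
    rw [h3] at hcount
    nlinarith
  -- Q = 2n+1-k
  obtain ⟨Q, hQ⟩ : ∃ Q, Q + k = 2 * n + 1 := ⟨2 * n + 1 - k, by omega⟩
  have hsq : Nat.sqrt (2 * n ^ 2 + 2 * n + 1) < Q := by omega
  have hQ2 : 2 * n ^ 2 + 2 * n + 1 < Q * Q := Nat.sqrt_lt.mp hsq
  have hQn : n + 1 ≤ Q := by
    by_contra hc
    push Not at hc
    have : Q ≤ n := by omega
    nlinarith
  -- split
  rcases Nat.even_or_odd Q with he | ho
  · obtain ⟨s, hs⟩ := he
    obtain ⟨R, C, hR, hC, hcount⟩ := corner_count (n := n) (r := s) (c := s) (by omega) (by omega)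
      (by omega)
    have h1 := hrect R C
    rw [hR, hC] at h1
    obtain ⟨u, hu⟩ : ∃ u, s + s = n + u := ⟨s + s - n, by omega⟩
    have hu' : s + s - n = u := by omega
    rw [hu'] at hcount
    generalize ((R ×ˢ C).filter (fun x => x.1 ≤ x.2)).card = a at *
    have h2 : a ≤ k * s := by rw [← hpq, add_mul]; exact h1
    clear h1 hrect hu'
    subst hs
    have hu2 : (u : ℤ) = 2 * s - n := by omega
    have hk2 : (k : ℤ) = 2 * n + 1 - 2 * s := by omega
    zify at hcount h2 hQ2
    rw [hu2] at hcount
    rw [hk2] at h2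
    nlinarith
  · obtain ⟨s, hs⟩ := ho
    obtain ⟨R, C, hR, hC, hcount⟩ := corner_count (n := n) (r := s) (c := s + 1) (by omega)
      (by omega) (by omega)
    obtain ⟨R', C', hR', hC', hcount'⟩ := corner_count (n := n) (r := s + 1) (c := s) (by omega)
      (by omega) (by omega)
    have h1 := hrect R C
    rw [hR, hC] at h1
    have h1' := hrect R' C'
    rw [hR', hC'] at h1'
    obtain ⟨u, hu⟩ : ∃ u, s + (s + 1) = n + u := ⟨s + (s + 1) - n, by omega⟩
    have hu' : s + (s + 1) - n = u := by omega
    have hu'' : (s + 1) + s - n = u := by omega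
    rw [hu'] at hcount
    rw [hu''] at hcount'
    generalize ((R ×ˢ C).filter (fun x => x.1 ≤ x.2)).card = a at *
    generalize ((R' ×ˢ C').filter (fun x => x.1 ≤ x.2)).card = b at *
    have h2 : a + b ≤ k * (2 * s + 1) := by
      rw [← hpq]
      calc a + b ≤ (p * s + q * (s + 1)) + (p * (s + 1) + q * s) := Nat.add_le_add h1 h1'
        _ = (p + q) * (2 * s + 1) := by ring
    clear h1 h1' hrect hu' hu''
    subst hs
    have hu2 : (u : ℤ) = 2 * s + 1 - n := by omega
    have hk2 : (k : ℤ) = 2 * n - 2 * s := by omega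
    zify at hcount hcount' h2 hQ2
    rw [hu2] at hcount hcount'
    rw [hk2] at h2
    nlinarith

lemma arith_int (n Q r c t s e k p q : ℤ) (hn : 0 ≤ n) (hr0 : 0 ≤ r) (hc0 : 0 ≤ c)
    (hs : s = r + c) (ht0 : 0 ≤ t) (ht : s ≤ n + t) (hQ0 : 0 ≤ Q)
    (hQ : Q * Q ≤ 2 * n ^ 2 + 2 * n + 1) (hk : k = 2 * n + 1 - Q) (hpq : p + q = k)
    (he : p = q + e) (he01 : e = 0 ∨ e = 1) :
    2 * (r * c) + t ≤ t * t + 2 * (p * r + q * c) := by
  -- `Q` has the parity of `e + 1`
  have hQ' : Q * Q + e ≤ 2 * n ^ 2 + 2 * n + 1 := by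
    rcases he01 with h | h
    · rw [h]; linarith
    · have hev : ∃ m, Q = 2 * m := ⟨n - q, by rw [he, h] at hpq; linarith⟩
      obtain ⟨m, hm⟩ := hev
      rw [h]
      have h1 : Q * Q = 2 * (2 * m * m) := by rw [hm]; ring
      have h2 : n ^ 2 = n * n := sq n
      rw [h1] at hQ ⊢
      rw [h2] at hQ ⊢
      have h3 : (2 * m * m) ≤ n * n + n := by omega
      linarith
  have he2 : e * e = e := by rcases he01 with h | h <;> rw [h] <;> norm_num
  have hgoal : s * s + e - (r - c + e) * (r - c + e) - 2 * (t * t - t) - 2 * k * s ≤ 0 →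
      2 * (r * c) + t ≤ t * t + 2 * (p * r + q * c) := by
    intro h
    have h1 : 2 * (2 * (r * c) + t) - 2 * (t * t + 2 * (p * r + q * c))
        = s * s + e * e - (r - c + e) * (r - c + e) - 2 * (t * t - t) - 2 * k * s := by
      rw [← hpq, he, hs]; ring
    rw [he2] at h1
    linarith
  apply hgoal
  -- case distinction
  rcases lt_or_ge s n with hsn | hsn
  · -- small `s`
    have ht2 : 0 ≤ t * t - t := by
      rcases ht0.lt_or_eq with h | h
      · nlinarith
      · rw [← h]; norm_num
    have h2k : n ≤ 2 * k := by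
      have : Q * 2 ≤ 3 * n + 2 := by
        by_contra hc
        push Not at hc
        nlinarith
      rw [hk]; linarith
    rcases (by rw [hs]; linarith : (0 : ℤ) ≤ s).lt_or_eq with h | h
    · have h1 : s * s + 1 ≤ 2 * k * s := by nlinarith
      have h2 : e ≤ 1 := by rcases he01 with h | h <;> rw [h] <;> norm_num
      nlinarith [mul_self_nonneg (r - c + e)]
    · have hr : r = 0 := by linarith
      have hc : c = 0 := by linarith
      rw [← h, hr, hc]
      have : (0 - 0 + e) * (0 - 0 + e) = e := by
        rw [sub_zero, zero_add]; exact he2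
      rw [this]
      linarith
  · -- large `s`
    have hu : (s - n) * (s - n) - (s - n) ≤ t * t - t := by
      rcases (by linarith : (0 : ℤ) ≤ s - n).lt_or_eq with h | h
      · have h1 : 1 ≤ s - n := h
        nlinarith
      · rw [← h]
        rcases ht0.lt_or_eq with h' | h'
        · nlinarith
        · rw [← h']
    have key : 1 ≤ (r - c + e) * (r - c + e) + (s - Q) * (s - Q) := by
      by_contra hcon
      push Not at hcon
      have h1 := mul_self_nonneg (r - c + e)
      have h2 := mul_self_nonneg (s - Q)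
      have h3 : (r - c + e) * (r - c + e) = 0 := by linarith
      have h4 : (s - Q) * (s - Q) = 0 := by linarith
      have h5 : r - c + e = 0 := by simpa using h3
      have h6 : s - Q = 0 := by simpa using h4
      omega
    have h1 : s * s + e - (r - c + e) * (r - c + e) - 2 * (t * t - t) - 2 * k * s
        ≤ s * s + e - (r - c + e) * (r - c + e) - 2 * ((s - n) * (s - n) - (s - n))
          - 2 * k * s := by linarith
    have h2 : s * s + e - (r - c + e) * (r - c + e) - 2 * ((s - n) * (s - n) - (s - n))
          - 2 * k * s = - (s - Q) * (s - Q) - (r - c + e) * (r - c + e)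
            + (Q * Q + e) - (2 * n ^ 2 + 2 * n) := by
      rw [hk]; ring
    linarith

lemma arith {n k p q r c t : ℕ} (ht : r + c ≤ n + t)
    (hk : k = 2 * n + 1 - Nat.sqrt (2 * n ^ 2 + 2 * n + 1)) (hpq : p + q = k)
    (hp : q ≤ p) (hq : p ≤ q + 1) : 2 * (r * c) + t ≤ t * t + 2 * (p * r + q * c) := by
  have hQ : Nat.sqrt (2 * n ^ 2 + 2 * n + 1) * Nat.sqrt (2 * n ^ 2 + 2 * n + 1)
      ≤ 2 * n ^ 2 + 2 * n + 1 := Nat.sqrt_le _
  set Q := Nat.sqrt (2 * n ^ 2 + 2 * n + 1) with hQdef
  have hQn : Q ≤ 2 * n + 1 := by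
    by_contra hc
    push Not at hc
    nlinarith
  have h := arith_int (n : ℤ) Q r c t (r + c) ((p : ℤ) - q) k p q (by positivity) (by positivity)
    (by positivity) rfl (by positivity) (by exact_mod_cast ht) (by positivity)
    (by exact_mod_cast hQ) (by omega) (by exact_mod_cast hpq) (by ring) (by omega)
  exact_mod_cast h

/-- Upper bound. -/
lemma upper (n : ℕ) : Covers n (2 * n + 1 - Nat.sqrt (2 * n ^ 2 + 2 * n + 1)) := by
  set k := 2 * n + 1 - Nat.sqrt (2 * n ^ 2 + 2 * n + 1) with hk
  obtain ⟨p, q, hpq, hp, hq⟩ : ∃ p q, p + q = k ∧ q ≤ p ∧ p ≤ q + 1 :=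
    ⟨k - k / 2, k / 2, by omega, by omega, by omega⟩
  rw [← hpq]
  apply covers_of_rect
  intro R C
  have h1 := card_cells R C
  have h2 := two_mul_card_lt (R ∩ C)
  have h3 : (((R ∩ C) ×ˢ (R ∩ C)).filter (fun x => x.2 < x.1)).card
      ≤ ((R ×ˢ C).filter (fun x => x.2 < x.1)).card := by
    apply Finset.card_le_card
    apply Finset.filter_subset_filter
    exact Finset.product_subset_product Finset.inter_subset_left Finset.inter_subset_right
  have h4 := Finset.card_union_add_card_inter R C
  have h5 : (R ∪ C).card ≤ n := by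
    have := Finset.card_le_univ (R ∪ C)
    rwa [Fintype.card_fin] at this
  have hR : R.card ≤ n := by
    have := Finset.card_le_univ R
    rwa [Fintype.card_fin] at this
  have hC : C.card ≤ n := by
    have := Finset.card_le_univ C
    rwa [Fintype.card_fin] at this
  have h6 := arith (n := n) (k := k) (p := p) (q := q) (r := R.card) (c := C.card)
    (t := (R ∩ C).card) (by omega) hk hpq hp hq
  generalize ((R ×ˢ C).filter (fun x => x.1 ≤ x.2)).card = a at *
  generalize ((R ×ˢ C).filter (fun x => x.2 < x.1)).card = b at *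
  generalize (((R ∩ C) ×ˢ (R ∩ C)).filter (fun x => x.2 < x.1)).card = d at *
  generalize R.card * C.card = rc at *
  generalize (R ∩ C).card * (R ∩ C).card = tt at *
  omega

theorem result (n : ℕ) :
    IsLeast {k : ℕ | Covers n k} (2 * n + 1 - Nat.sqrt (2 * n ^ 2 + 2 * n + 1)) :=
  ⟨upper n, fun _ h => lower h⟩

end Pool.Agent.Results.MP_88b6d1_co.ExactValue
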